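import Pool.Agent.Run7.h500.RJC13Data

/-!
# MP_95cf14_ag: a counterexample of degree 13 to the real Jacobian conjecture

The Jacobian is a sum of squares in the coordinate ring of the surface `G^2 - 1 = w (y^2 - 1)`,
where `G = x (y^2 - 1) - y` and `w = (x y - 1)^2 - x^2`; the plane is the complement in that
surface of the two lines `y = G = 1` and `y = G = -1`, along which `p` is constant and `q` is a
cubic polynomial of `w` with two critical points.  The map is generically three to one.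

We exhibit `p, q : ℝ[x,y]` of degrees at most `7` and `13` whose Jacobian determinant is
strictly positive on all of `ℝ²`, and such that `(p, q) : ℝ² → ℝ²` is not injective.  So the
minimal degree `d_min` of such a map is at most `13`, and the conjecture `d_min ≥ 15` is false.
-/

namespace Pool.Agent.Results.MP_95cf14_ag.DegreeThirteen

open MvPolynomial Pool.Agent.Run7.h500.RJC13Data

noncomputable section

/-- The Jacobian determinant `p_x q_y - p_y q_x` of a pair of real polynomials in two variables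
(`x = X 0`, `y = X 1`). -/
def jac (p q : MvPolynomial (Fin 2) ℝ) : MvPolynomial (Fin 2) ℝ :=
  pderiv 0 p * pderiv 1 q - pderiv 1 p * pderiv 0 q

/-- The polynomial map `ℝ² → ℝ²` with components `p`, `q`. -/
def polyMap (p q : MvPolynomial (Fin 2) ℝ) (v : Fin 2 → ℝ) : ℝ × ℝ := (eval v p, eval v q)

/-- `(p, q)` is a counterexample to the real Jacobian conjecture: the Jacobian determinant has no
zero on `ℝ²`, and the map is not injective. -/
def IsCounterexample (p q : MvPolynomial (Fin 2) ℝ) : Prop :=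
  (∀ v : Fin 2 → ℝ, eval v (jac p q) ≠ 0) ∧ ¬ Function.Injective (polyMap p q)

/-- The least degree `max (deg p) (deg q)` of a counterexample `(p, q)`. -/
def dmin : ℕ :=
  sInf {d : ℕ | ∃ p q : MvPolynomial (Fin 2) ℝ,
    IsCounterexample p q ∧ max p.totalDegree q.totalDegree = d}

abbrev Y : MvPolynomial (Fin 2) ℝ := X 1
def GG : MvPolynomial (Fin 2) ℝ := X 0 * (X 1 ^ 2 - 1) - X 1
def W : MvPolynomial (Fin 2) ℝ := (X 0 * X 1 - 1) ^ 2 - X 0 ^ 2

/-- First component, of degree `7`. -/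
def p0 : MvPolynomial (Fin 2) ℝ := (W + 1) * GG - (W + C (1/3)) * Y

/-- Second component, of degree `13`. -/
def q0 : MvPolynomial (Fin 2) ℝ :=
  (C (-1/3)) * (Y*W^3) + (C (7/4)) * (Y^5*W^2) + (C (1653/8192)) * (Y^9*W) + (C (739/1048576)) * (Y^13) + (C (-35/16)) * (GG*Y^2*W^2) + (C (95/16)) * (Y^3*W^2) + (C (349/32)) * (GG*W^2) + (C (-525/32)) * (Y*W^2) + (C (3685/65536)) * (Y^9) + (C (-311/32)) * (GG*Y^2*W) + (C (87619/18432)) * (Y^3*W) + (C (375767/73728)) * (Y*W) + (C (-15/8)) * (GG*Y^2) + (C (-43498489/84934656)) * (Y^3) + (C (-85/32)) * (GG) + (C (43059763/7077888)) * (Y)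

def qY : MvPolynomial (Fin 2) ℝ :=
  (C (-1/3)) * (1 * (W^3)) + (C (7/4)) * (5 * (Y^4*W^2)) + (C (1653/8192)) * (9 * (Y^8*W)) + (C (739/1048576)) * (13 * (Y^12)) + (C (-35/16)) * (2 * (GG*Y*W^2)) + (C (95/16)) * (3 * (Y^2*W^2)) + (C (-525/32)) * (1 * (W^2)) + (C (3685/65536)) * (9 * (Y^8)) + (C (-311/32)) * (2 * (GG*Y*W)) + (C (87619/18432)) * (3 * (Y^2*W)) + (C (375767/73728)) * (1 * (W)) + (C (-15/8)) * (2 * (GG*Y)) + (C (-43498489/84934656)) * (3 * (Y^2)) + (C (43059763/7077888)) * (1 * (1))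

def qG : MvPolynomial (Fin 2) ℝ :=
  (C (-35/16)) * (1 * (Y^2*W^2)) + (C (349/32)) * (1 * (W^2)) + (C (-311/32)) * (1 * (Y^2*W)) + (C (-15/8)) * (1 * (Y^2)) + (C (-85/32)) * (1 * (1))

def qW : MvPolynomial (Fin 2) ℝ :=
  (C (-1/3)) * (3 * (Y*W^2)) + (C (7/4)) * (2 * (Y^5*W)) + (C (1653/8192)) * (1 * (Y^9)) + (C (-35/16)) * (2 * (GG*Y^2*W)) + (C (95/16)) * (2 * (Y^3*W)) + (C (349/32)) * (2 * (GG*W)) + (C (-525/32)) * (2 * (Y*W)) + (C (-311/32)) * (1 * (GG*Y^2)) + (C (87619/18432)) * (1 * (Y^3)) + (C (375767/73728)) * (1 * (Y))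


lemma D_q0 (D : Derivation ℝ (MvPolynomial (Fin 2) ℝ) (MvPolynomial (Fin 2) ℝ)) :
    D q0 = qY * D Y + qG * D GG + qW * D W := by
  simp only [q0, qY, qG, qW, map_add, Derivation.leibniz, Derivation.leibniz_pow,
    MvPolynomial.derivation_C, smul_eq_mul, nsmul_eq_mul, mul_zero, add_zero]
  push_cast
  ring

lemma D_p0 (D : Derivation ℝ (MvPolynomial (Fin 2) ℝ) (MvPolynomial (Fin 2) ℝ)) :
    D p0 = (GG - Y) * D W + (W + 1) * D GG - (W + C (1/3)) * D Y := by
  simp only [p0, map_sub, map_add, Derivation.leibniz, MvPolynomial.derivation_C, smul_eq_mul,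
    Derivation.map_one_eq_zero, add_zero]
  ring

lemma d0Y : pderiv (0 : Fin 2) Y = 0 := by
  simp [Y]

lemma d1Y : pderiv (1 : Fin 2) Y = 1 := by
  simp [Y]

lemma d0G : pderiv (0 : Fin 2) GG = X 1 ^ 2 - 1 := by
  have h : pderiv (0 : Fin 2) (X 1 : MvPolynomial (Fin 2) ℝ) = 0 := pderiv_X_of_ne (by decide)
  simp only [GG, map_sub, Derivation.leibniz, Derivation.leibniz_pow, smul_eq_mul, nsmul_eq_mul,
    Derivation.map_one_eq_zero, pderiv_X_self, h]
  ring

lemma d1G : pderiv (1 : Fin 2) GG = 2 * (X 0 * X 1) - 1 := by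
  have h : pderiv (1 : Fin 2) (X 0 : MvPolynomial (Fin 2) ℝ) = 0 := pderiv_X_of_ne (by decide)
  simp only [GG, map_sub, Derivation.leibniz, Derivation.leibniz_pow, smul_eq_mul, nsmul_eq_mul,
    Derivation.map_one_eq_zero, pderiv_X_self, h]
  push_cast
  ring

lemma d0W : pderiv (0 : Fin 2) W = 2 * X 1 * (X 0 * X 1 - 1) - 2 * X 0 := by
  have h : pderiv (0 : Fin 2) (X 1 : MvPolynomial (Fin 2) ℝ) = 0 := pderiv_X_of_ne (by decide)
  simp only [W, map_sub, Derivation.leibniz, Derivation.leibniz_pow, smul_eq_mul, nsmul_eq_mul,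
    Derivation.map_one_eq_zero, pderiv_X_self, h]
  push_cast
  ring

lemma d1W : pderiv (1 : Fin 2) W = 2 * X 0 * (X 0 * X 1 - 1) := by
  have h : pderiv (1 : Fin 2) (X 0 : MvPolynomial (Fin 2) ℝ) = 0 := pderiv_X_of_ne (by decide)
  simp only [W, map_sub, Derivation.leibniz, Derivation.leibniz_pow, smul_eq_mul, nsmul_eq_mul,
    Derivation.map_one_eq_zero, pderiv_X_self, h]
  push_cast
  ring

lemma real_bracket (a b c x y G w : ℝ) (hG : G = x * (y ^ 2 - 1) - y)
    (hw : w = (x * y - 1) ^ 2 - x ^ 2) :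
    ((G - y) * (2 * y * (x * y - 1) - 2 * x) + (w + 1) * (y ^ 2 - 1) - (w + 1/3) * 0) *
        (a * 1 + b * (2 * (x * y) - 1) + c * (2 * x * (x * y - 1))) -
      ((G - y) * (2 * x * (x * y - 1)) + (w + 1) * (2 * (x * y) - 1) - (w + 1/3) * 1) *
        (a * 0 + b * (y ^ 2 - 1) + c * (2 * y * (x * y - 1) - 2 * x)) =
      a * (3*G^2 - 2*G*y + y^2 - 2) + b * (-G^2 + 1 + (1/3)*(y^2-1) + 2*w*y*G - 2*w)
        + c * (2*G*(w+1/3) - 2*y*w*(w+1)) := by
  subst hG hw
  ring

lemma rel (x y : ℝ) : (x * (y ^ 2 - 1) - y) ^ 2 - 1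
    = ((x * y - 1) ^ 2 - x ^ 2) * (y ^ 2 - 1) := by ring

lemma eval_jac (v : Fin 2 → ℝ) :
    eval v (jac p0 q0) = Jf (v 1) (v 0 * (v 1 ^ 2 - 1) - v 1)
      ((v 0 * v 1 - 1) ^ 2 - v 0 ^ 2) := by
  have hb := real_bracket (eval v qY) (eval v qG) (eval v qW) (v 0) (v 1) _ _ rfl rfl
  have e1 : eval v (jac p0 q0) =
      ((v 0 * (v 1 ^ 2 - 1) - v 1 - v 1) * (2 * v 1 * (v 0 * v 1 - 1) - 2 * v 0) +
        ((v 0 * v 1 - 1) ^ 2 - v 0 ^ 2 + 1) * (v 1 ^ 2 - 1) -
          ((v 0 * v 1 - 1) ^ 2 - v 0 ^ 2 + 1/3) * 0) *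
        (eval v qY * 1 + eval v qG * (2 * (v 0 * v 1) - 1) +
          eval v qW * (2 * v 0 * (v 0 * v 1 - 1))) -
      ((v 0 * (v 1 ^ 2 - 1) - v 1 - v 1) * (2 * v 0 * (v 0 * v 1 - 1)) +
        ((v 0 * v 1 - 1) ^ 2 - v 0 ^ 2 + 1) * (2 * (v 0 * v 1) - 1) -
          ((v 0 * v 1 - 1) ^ 2 - v 0 ^ 2 + 1/3) * 1) *
        (eval v qY * 0 + eval v qG * (v 1 ^ 2 - 1) +
          eval v qW * (2 * v 1 * (v 0 * v 1 - 1) - 2 * v 0)) := by
    simp only [jac, D_q0, D_p0, d0Y, d1Y, d0G, d1G, d0W, d1W]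
    simp only [map_sub, map_add, map_mul, map_pow, map_one, map_zero, map_ofNat, eval_X, eval_C, Y,
      GG, W]
  rw [e1, hb]
  simp only [Jf, qY, qG, qW, Y, GG, W, map_sub, map_add, map_mul, map_pow, map_one, map_zero,
    map_ofNat, eval_X, eval_C]
  ring


lemma Jf_pos (x y : ℝ) : 0 < Jf y (x * (y ^ 2 - 1) - y) ((x * y - 1) ^ 2 - x ^ 2) := by
  rw [J_sos _ _ _ (rel x y)]
  set G := x * (y ^ 2 - 1) - y with hG
  set w := (x * y - 1) ^ 2 - x ^ 2 with hw
  by_cases hy : y ^ 2 - 1 = 0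
  · have h8 : (l8 y G w) ≠ 0 := by
      have hy2 : y ^ 2 = 1 := by linarith
      have hG' : G = - y := by rw [hG, hy]; ring
      have : l8 y G w = -2 := by
        rw [l8, hG']
        linear_combination ((-488290878677827961003473607821460/194664802187839871221206024212409)) * hy2
      rw [this]; norm_num
    have : 0 < (l8 y G w) ^ 2 := by positivity
    positivity
  · have h9 : (l9 y G w) ≠ 0 := by
      have : l9 y G w = y ^ 2 - 1 := by rw [l9]; ring
      rw [this]; exact hy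
    have : 0 < (l9 y G w) ^ 2 := by positivity
    positivity


lemma deg_Y : Y.totalDegree ≤ 1 := by
  simp [Y]

lemma deg_G : GG.totalDegree ≤ 3 := by
  unfold GG
  refine (totalDegree_sub _ _).trans (max_le ?_ ?_)
  · refine (totalDegree_mul _ _).trans ?_
    have h1 : (X 0 : MvPolynomial (Fin 2) ℝ).totalDegree = 1 := totalDegree_X _
    have h2 : (X 1 ^ 2 - 1 : MvPolynomial (Fin 2) ℝ).totalDegree ≤ 2 := by
      refine (totalDegree_sub _ _).trans (max_le ?_ ?_)
      · refine (totalDegree_pow _ _).trans ?_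
        simp
      · simp
    omega
  · simp

lemma deg_W : W.totalDegree ≤ 4 := by
  unfold W
  refine (totalDegree_sub _ _).trans (max_le ?_ ?_)
  · refine (totalDegree_pow _ _).trans ?_
    have h2 : (X 0 * X 1 - 1 : MvPolynomial (Fin 2) ℝ).totalDegree ≤ 2 := by
      refine (totalDegree_sub _ _).trans (max_le ?_ ?_)
      · refine (totalDegree_mul _ _).trans ?_
        simp
      · simp
    omega
  · refine (totalDegree_pow _ _).trans ?_
    simp

lemma deg_YW (i k : ℕ) : (Y ^ i * W ^ k).totalDegree ≤ i + 4 * k := by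
  refine (totalDegree_mul _ _).trans ?_
  have h1 := (totalDegree_pow Y i).trans (Nat.mul_le_mul_left i deg_Y)
  have h2 := (totalDegree_pow W k).trans (Nat.mul_le_mul_left k deg_W)
  omega

lemma deg_GYW (i k : ℕ) : (GG * (Y ^ i * W ^ k)).totalDegree ≤ 3 + i + 4 * k := by
  refine (totalDegree_mul _ _).trans ?_
  have h1 := deg_YW i k
  have h2 := deg_G
  omega

lemma deg_C_mul (c : ℝ) (f : MvPolynomial (Fin 2) ℝ) (n : ℕ) (h : f.totalDegree ≤ n) :
    (C c * f).totalDegree ≤ n := by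
  refine (totalDegree_mul _ _).trans ?_
  simpa using h

lemma deg_add {f g : MvPolynomial (Fin 2) ℝ} {n : ℕ} (hf : f.totalDegree ≤ n)
    (hg : g.totalDegree ≤ n) : (f + g).totalDegree ≤ n :=
  (totalDegree_add _ _).trans (max_le hf hg)


lemma deg_q0 : q0.totalDegree ≤ 13 := by
  unfold q0
  repeat' apply deg_add
  all_goals apply deg_C_mul

  · refine (le_of_eq (congrArg totalDegree (by ring))).trans ((deg_YW 1 3).trans (by norm_num))
  · refine (le_of_eq (congrArg totalDegree (by ring))).trans ((deg_YW 5 2).trans (by norm_num))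
  · refine (le_of_eq (congrArg totalDegree (by ring))).trans ((deg_YW 9 1).trans (by norm_num))
  · refine (le_of_eq (congrArg totalDegree (by ring))).trans ((deg_YW 13 0).trans (by norm_num))
  · refine (le_of_eq (congrArg totalDegree (by ring))).trans ((deg_GYW 2 2).trans (by norm_num))
  · refine (le_of_eq (congrArg totalDegree (by ring))).trans ((deg_YW 3 2).trans (by norm_num))
  · refine (le_of_eq (congrArg totalDegree (by ring))).trans ((deg_GYW 0 2).trans (by norm_num))
  · refine (le_of_eq (congrArg totalDegree (by ring))).trans ((deg_YW 1 2).trans (by norm_num))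
  · refine (le_of_eq (congrArg totalDegree (by ring))).trans ((deg_YW 9 0).trans (by norm_num))
  · refine (le_of_eq (congrArg totalDegree (by ring))).trans ((deg_GYW 2 1).trans (by norm_num))
  · refine (le_of_eq (congrArg totalDegree (by ring))).trans ((deg_YW 3 1).trans (by norm_num))
  · refine (le_of_eq (congrArg totalDegree (by ring))).trans ((deg_YW 1 1).trans (by norm_num))
  · refine (le_of_eq (congrArg totalDegree (by ring))).trans ((deg_GYW 2 0).trans (by norm_num))
  · refine (le_of_eq (congrArg totalDegree (by ring))).trans ((deg_YW 3 0).trans (by norm_num))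
  · refine (le_of_eq (congrArg totalDegree (by ring))).trans ((deg_GYW 0 0).trans (by norm_num))
  · refine (le_of_eq (congrArg totalDegree (by ring))).trans ((deg_YW 1 0).trans (by norm_num))

lemma deg_p0 : p0.totalDegree ≤ 7 := by
  unfold p0
  refine (totalDegree_sub _ _).trans (max_le ?_ ?_)
  · refine (totalDegree_mul _ _).trans ?_
    have h1 : (W + 1).totalDegree ≤ 4 := by
      refine (totalDegree_add _ _).trans (max_le deg_W ?_)
      simp
    have h2 := deg_G
    omega
  · refine (totalDegree_mul _ _).trans ?_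
    have h1 : (W + C (1/3)).totalDegree ≤ 4 := by
      refine (totalDegree_add _ _).trans (max_le deg_W ?_)
      simp
    have h2 := deg_Y
    omega

/-- The two points `(0, 0)` and `(2/3, 2)` have the same image `(0, 0)`. -/
lemma not_inj : ¬ Function.Injective (polyMap p0 q0) := by
  intro h
  have h1 : polyMap p0 q0 ![0, 0] = (0, 0) := by
    simp only [polyMap, p0, q0, Y, GG, W, map_sub, map_add, map_mul, map_pow, map_one, eval_X,
      eval_C, Matrix.cons_val_zero, Matrix.cons_val_one, Prod.mk.injEq]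
    constructor <;> norm_num
  have h2 : polyMap p0 q0 ![2/3, 2] = (0, 0) := by
    simp only [polyMap, p0, q0, Y, GG, W, map_sub, map_add, map_mul, map_pow, map_one, eval_X,
      eval_C, Matrix.cons_val_zero, Matrix.cons_val_one, Prod.mk.injEq]
    constructor <;> norm_num
  have h3 := congrFun (h (h1.trans h2.symm)) 1
  simp at h3

/-- There is a polynomial map `(p, q) : ℝ² → ℝ²` with `deg p ≤ 7`, `deg q ≤ 13`, with strictly
positive Jacobian determinant on all of `ℝ²`, that is not injective.  Hence the least degree of a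
counterexample to the real Jacobian conjecture is at most `13`; in particular the conjecture
`15 ≤ d_min` is false. -/
theorem result :
    (∃ p q : MvPolynomial (Fin 2) ℝ, p.totalDegree ≤ 7 ∧ q.totalDegree ≤ 13 ∧
      (∀ v : Fin 2 → ℝ, 0 < eval v (jac p q)) ∧ ¬ Function.Injective (polyMap p q)) ∧
    dmin ≤ 13 := by
  have hpos : ∀ v : Fin 2 → ℝ, 0 < eval v (jac p0 q0) := fun v => by
    rw [eval_jac]; exact Jf_pos _ _
  have hd : dmin ≤ 13 := by
    have hm : max p0.totalDegree q0.totalDegree ∈ {d : ℕ | ∃ p q : MvPolynomial (Fin 2) ℝ,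
        IsCounterexample p q ∧ max p.totalDegree q.totalDegree = d} :=
      ⟨p0, q0, ⟨fun v => (hpos v).ne', not_inj⟩, rfl⟩
    exact (Nat.sInf_le hm).trans (max_le (deg_p0.trans (by norm_num)) deg_q0)
  exact ⟨⟨p0, q0, deg_p0, deg_q0, hpos, not_inj⟩, hd⟩

end

end Pool.Agent.Results.MP_95cf14_ag.DegreeThirteen
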